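import Pool.Agent.N479.CR.Def

set_option autoImplicit false

/-! # Joining the points of a family by steps of a given length -/

namespace Pool.Agent.N479.CR

open Finset Pool.Agent.N479.ER

/-- one more point off the affine hull -/
theorem DT_good {A δ : Type} [Finite A] [Fintype δ] (x : A → δ → ℝ)
    (h : Good (fun a b => sq (x a) (x b))) (z₀ : δ → ℝ) (g : ℝ) (hg : 0 < g) :
    Good (DT x z₀ g) := by
  intro κ _
  obtain ⟨ι, i, H⟩ := ER.main (κ := κ) x z₀ g hg (fun κ _ => by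
    obtain ⟨ι, i, W, H⟩ := h κ
    refine ⟨ι, i, fun c => ?_⟩
    obtain ⟨f, -, d, e⟩ := H c
    exact ⟨f, d, e⟩) (Nat.card κ)
  obtain ⟨W, hW⟩ := compactness (κ := κ) (DT x z₀ g) (Nat.card κ) H
  refine ⟨ι, i, W, fun c => ?_⟩
  obtain ⟨f, d, e⟩ := hW (fun w => c w) (by
    refine (Set.ncard_le_ncard (Set.subset_univ _) (Set.toFinite _)).trans ?_
    rw [Set.ncard_univ])
  exact ⟨fun a => f a, fun a => (f a).2, d, e⟩

/-- the points of `DT` -/
noncomputable def ap {A δ : Type} (x : A → δ → ℝ) (z₀ : δ → ℝ) (g : ℝ) : Option A → δ ⊕ Unit → ℝ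
  | some a => Sum.elim (x a) 0
  | none => Sum.elim z₀ (fun _ => √g)

lemma sq_ap {A δ : Type} [Fintype δ] (x : A → δ → ℝ) (z₀ : δ → ℝ) (g : ℝ) (hg : 0 ≤ g)
    (a b : Option A) : sq (ap x z₀ g a) (ap x z₀ g b) = DT x z₀ g a b := by
  match a, b with
  | some a, some b => simp only [ap, DT]; rw [sq_sumElim, sq_self, add_zero]
  | some a, none =>
    simp only [ap, DT]
    rw [sq_sumElim]
    simp [ER.sq, Real.sq_sqrt hg]
  | none, some a =>
    simp only [ap, DT]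
    rw [sq_sumElim, sq_comm z₀]
    simp [ER.sq, Real.sq_sqrt hg]
  | none, none => simp only [ap, DT]; rw [sq_self]

lemma sq_mid {δ : Type} [Fintype δ] (u v : δ → ℝ) :
    sq u (fun i => (u i + v i) / 2) = sq u v / 4 ∧
      sq v (fun i => (u i + v i) / 2) = sq u v / 4 := by
  unfold ER.sq
  rw [Finset.sum_div]
  exact ⟨Finset.sum_congr rfl fun i _ => by ring, Finset.sum_congr rfl fun i _ => by ring⟩

/-- two points can be joined by steps of squared length `Δ` in a larger family -/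
theorem link (Δ : ℝ) (hΔ : 0 < Δ) (j : ℕ) : ∀ (Y : Type) [Finite Y] (δ : Type) [Fintype δ]
    (y : Y → δ → ℝ), Good (fun a b => sq (y a) (y b)) → ∀ p q : Y,
    sq (y p) (y q) < 4 * Δ * 2 ^ j →
    ∃ (Y' : Type) (_ : Finite Y') (δ' : Type) (_ : Fintype δ') (y' : Y' → δ' → ℝ) (e : Y → Y'),
      Good (fun a b => sq (y' a) (y' b)) ∧ (∀ a b, sq (y' (e a)) (y' (e b)) = sq (y a) (y b)) ∧
      ∀ (C' : Type) (k : Y' → C'), (∀ u v, sq (y' u) (y' v) = Δ → k u = k v) →
        k (e p) = k (e q) := by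
  induction j with
  | zero =>
    intro Y _ δ _ y hy p q hpq
    rw [pow_zero, mul_one] at hpq
    set z₀ : δ → ℝ := fun i => (y p i + y q i) / 2 with hz₀
    set g := Δ - sq (y p) (y q) / 4 with hg
    have hg0 : 0 < g := by rw [hg]; linarith
    obtain ⟨m1, m2⟩ := sq_mid (y p) (y q)
    refine ⟨Option Y, inferInstance, δ ⊕ Unit, inferInstance, ap y z₀ g, some, ?_, ?_, ?_⟩
    · exact (DT_good y hy z₀ g hg0).congr fun a b => (sq_ap y z₀ g hg0.le a b).symm
    · intro a b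
      rw [sq_ap y z₀ g hg0.le]
      rfl
    · intro C' k hk
      have e1 : k (some p) = k none := hk _ _ (by
        rw [sq_ap y z₀ g hg0.le]
        simp only [DT]
        rw [m1, hg]; ring)
      have e2 : k (some q) = k none := hk _ _ (by
        rw [sq_ap y z₀ g hg0.le]
        simp only [DT]
        rw [m2, hg]; ring)
      exact e1.trans e2.symm
  | succ j ih =>
    intro Y _ δ _ y hy p q hpq
    set z₀ : δ → ℝ := fun i => (y p i + y q i) / 2 with hz₀
    set g := Δ * 2 ^ j with hg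
    have hg0 : 0 < g := by positivity
    obtain ⟨m1, m2⟩ := sq_mid (y p) (y q)
    have hgood : Good (fun a b => sq (ap y z₀ g a) (ap y z₀ g b)) :=
      (DT_good y hy z₀ g hg0).congr fun a b => (sq_ap y z₀ g hg0.le a b).symm
    have hlt : sq (y p) (y q) / 4 + g < 4 * Δ * 2 ^ j := by
      rw [pow_succ] at hpq
      rw [hg]
      nlinarith
    obtain ⟨Y₁, _, δ₁, _, y₁, e₁, h₁, d₁, c₁⟩ := ih (Option Y) (δ ⊕ Unit) (ap y z₀ g) hgood
      (some p) none (by
        rw [sq_ap y z₀ g hg0.le]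
        simp only [DT]
        rw [m1]
        exact hlt)
    obtain ⟨Y₂, _, δ₂, _, y₂, e₂, h₂, d₂, c₂⟩ := ih Y₁ δ₁ y₁ h₁ (e₁ (some q)) (e₁ none) (by
        rw [d₁, sq_ap y z₀ g hg0.le]
        simp only [DT]
        rw [m2]
        exact hlt)
    refine ⟨Y₂, inferInstance, δ₂, inferInstance, y₂, fun a => e₂ (e₁ (some a)), h₂, ?_, ?_⟩
    · intro a b
      rw [d₂, d₁, sq_ap y z₀ g hg0.le]
      rfl
    · intro C' k hk
      have f1 : k (e₂ (e₁ (some q))) = k (e₂ (e₁ none)) := c₂ C' k hk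
      have f2 : k (e₂ (e₁ (some p))) = k (e₂ (e₁ none)) :=
        c₁ C' (fun a => k (e₂ a)) fun u v huv => hk _ _ (by rw [d₂]; exact huv)
      exact f2.trans f1.symm

/-- all pairs in a finite set of pairs can be joined -/
theorem link_all (Δ : ℝ) (hΔ : 0 < Δ) {Y : Type} [Finite Y] {δ : Type} [Fintype δ]
    (y : Y → δ → ℝ) (hy : Good (fun a b => sq (y a) (y b))) (s : Finset (Y × Y)) :
    ∃ (Y' : Type) (_ : Finite Y') (δ' : Type) (_ : Fintype δ') (y' : Y' → δ' → ℝ) (e : Y → Y'),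
      Good (fun a b => sq (y' a) (y' b)) ∧ (∀ a b, sq (y' (e a)) (y' (e b)) = sq (y a) (y b)) ∧
      ∀ (C' : Type) (k : Y' → C'), (∀ u v, sq (y' u) (y' v) = Δ → k u = k v) →
        ∀ p ∈ s, k (e p.1) = k (e p.2) := by
  classical
  induction s using Finset.induction_on with
  | empty =>
    exact ⟨Y, inferInstance, δ, inferInstance, y, id, hy, fun _ _ => rfl, fun _ _ _ => by simp⟩
  | insert p s _ ih =>
    obtain ⟨Y₁, _, δ₁, _, y₁, e₁, h₁, d₁, c₁⟩ := ih
    obtain ⟨j, hj⟩ : ∃ j : ℕ, sq (y₁ (e₁ p.1)) (y₁ (e₁ p.2)) / (4 * Δ) < 2 ^ j := by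
      obtain ⟨n, hn⟩ := pow_unbounded_of_one_lt (sq (y₁ (e₁ p.1)) (y₁ (e₁ p.2)) / (4 * Δ))
        (by norm_num : (1 : ℝ) < 2)
      exact ⟨n, hn⟩
    rw [div_lt_iff₀ (by positivity)] at hj
    obtain ⟨Y₂, _, δ₂, _, y₂, e₂, h₂, d₂, c₂⟩ := link Δ hΔ j Y₁ δ₁ y₁ h₁ (e₁ p.1) (e₁ p.2)
      (by linarith)
    refine ⟨Y₂, inferInstance, δ₂, inferInstance, y₂, fun a => e₂ (e₁ a), h₂, ?_, ?_⟩
    · intro a b
      rw [d₂, d₁]
    · intro C' k hk q hq
      rcases Finset.mem_insert.mp hq with rfl | hq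
      · exact c₂ C' k hk
      · exact c₁ C' (fun a => k (e₂ a)) (fun u v huv => hk _ _ (by rw [d₂]; exact huv)) q hq

/-- a larger family in which all points of the given one are joined -/
theorem joined (Δ : ℝ) (hΔ : 0 < Δ) {Y : Type} [Finite Y] {δ : Type} [Fintype δ]
    (y : Y → δ → ℝ) (hy : Good (fun a b => sq (y a) (y b))) :
    ∃ (Y' : Type) (_ : Finite Y') (δ' : Type) (_ : Fintype δ') (y' : Y' → δ' → ℝ) (e : Y → Y'),
      Good (fun a b => sq (y' a) (y' b)) ∧ (∀ a b, sq (y' (e a)) (y' (e b)) = sq (y a) (y b)) ∧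
      ∀ (C' : Type) (k : Y' → C'), (∀ u v, sq (y' u) (y' v) = Δ → k u = k v) →
        ∀ a b, k (e a) = k (e b) := by
  classical
  have := Fintype.ofFinite Y
  obtain ⟨Y', i1, δ', i2, y', e, h, d, c⟩ := link_all Δ hΔ y hy Finset.univ
  exact ⟨Y', i1, δ', i2, y', e, h, d, fun C' k hk a b => c C' k hk (a, b) (Finset.mem_univ _)⟩

end Pool.Agent.N479.CR
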