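import Pool.Agent.N479.ER.Main

set_option autoImplicit false

/-! # Copies with few coincidences, and their products -/

namespace Pool.Agent.N479.CR

open Finset Pool.Agent.N479.ER

/-- three colours suffice for a relation which is the graph of a partial injection -/
theorem color3 {C : Type} (R : C → C → Prop) (h1 : ∀ a b b', R a b → R a b' → b = b')
    (h2 : ∀ a a' b, R a b → R a' b → a = a') (s : Finset C) :
    ∃ κ : C → Fin 3, ∀ a ∈ s, ∀ b ∈ s, R a b → a ≠ b → κ a ≠ κ b := by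
  classical
  induction s using Finset.induction_on with
  | empty => exact ⟨fun _ => 0, by simp⟩
  | insert a s ha ih =>
    obtain ⟨κ, hκ⟩ := ih
    let k₁ : Fin 3 := if h : ∃ b ∈ s, R a b then κ h.choose else 0
    let k₂ : Fin 3 := if h : ∃ b ∈ s, R b a then κ h.choose else 0
    obtain ⟨k, hk1, hk2⟩ : ∃ k : Fin 3, k ≠ k₁ ∧ k ≠ k₂ := by
      generalize k₁ = p
      generalize k₂ = q
      revert p q
      decide
    refine ⟨Function.update κ a k, fun x hx y hy hR hne => ?_⟩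
    rcases Finset.mem_insert.mp hx with hxa | hxs
    · subst hxa
      rcases Finset.mem_insert.mp hy with hya | hys
      · exact absurd hya.symm hne
      · have hy' : y ≠ x := fun e => hne e.symm
        rw [Function.update_self, Function.update_of_ne hy']
        have h : ∃ b ∈ s, R x b := ⟨y, hys, hR⟩
        have e : h.choose = y := h1 _ _ _ h.choose_spec.2 hR
        have : k₁ = κ y := by
          simp only [k₁]
          rw [dif_pos h, e]
        rw [← this]
        exact hk1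
    · rcases Finset.mem_insert.mp hy with hya | hys
      · subst hya
        rw [Function.update_self, Function.update_of_ne hne]
        have h : ∃ b ∈ s, R b y := ⟨x, hxs, hR⟩
        have e : h.choose = x := h2 _ _ _ h.choose_spec.2 hR
        have : k₂ = κ x := by
          simp only [k₂]
          rw [dif_pos h, e]
        rw [← this]
        exact hk2.symm
      · have hx' : x ≠ a := fun e => ha (e ▸ hxs)
        have hy' : y ≠ a := fun e => ha (e ▸ hys)
        rw [Function.update_of_ne hx', Function.update_of_ne hy']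
        exact hκ x hxs y hys hR hne

/-- no accidental coincidences between two maps with the same pattern -/
theorem three {Y C : Type} [Finite Y] (u v : Y → C) (H : ∀ y y', u y = u y' ↔ v y = v y') :
    ∃ κ : C → Fin 3, ∀ y y', κ (u y) = κ (u y') → u y = v y' → u y = u y' := by
  classical
  have := Fintype.ofFinite Y
  obtain ⟨κ, hκ⟩ := color3 (fun γ γ' => ∃ y, v y = γ ∧ u y = γ')
    (by
      rintro a b b' ⟨y, e1, e2⟩ ⟨y', e3, e4⟩
      rw [← e2, ← e4]
      exact (H y y').mpr (e1.trans e3.symm))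
    (by
      rintro a a' b ⟨y, e1, e2⟩ ⟨y', e3, e4⟩
      rw [← e1, ← e3]
      exact (H y y').mp (e2.trans e4.symm))
    (Finset.univ.image u)
  refine ⟨κ, fun y y' hk e => ?_⟩
  by_contra hne
  exact hκ (u y) (Finset.mem_image_of_mem _ (Finset.mem_univ _)) (u y')
    (Finset.mem_image_of_mem _ (Finset.mem_univ _)) ⟨y', e.symm, rfl⟩ hne hk

/-- `c` has no monochromatic copy of `DX` -/
def NoMono {X C ι : Type} [Fintype ι] (DX : X → X → ℝ) (c : (ι → ℝ) → C) : Prop :=
  ∀ f : X → ι → ℝ, (∀ a b, sq (f a) (f b) = DX a b) → ∃ a b, c (f a) ≠ c (f b)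

lemma NoMono.left {X C ι κ : Type} [Fintype ι] [Fintype κ] {DX : X → X → ℝ}
    {c : (ι ⊕ κ → ℝ) → C} (h : NoMono DX c) (w : κ → ℝ) :
    NoMono DX (fun u => c (Sum.elim u w)) := by
  intro f hf
  exact h (fun a => Sum.elim (f a) w) fun a b => by rw [sq_sumElim, sq_self, add_zero, hf]

lemma NoMono.right {X C ι κ : Type} [Fintype ι] [Fintype κ] {DX : X → X → ℝ}
    {c : (ι ⊕ κ → ℝ) → C} (h : NoMono DX c) (u : ι → ℝ) :
    NoMono DX (fun w => c (Sum.elim u w)) := by
  intro f hf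
  exact h (fun a => Sum.elim u (f a)) fun a b => by rw [sq_sumElim, sq_self, zero_add, hf]

/-- For finitely many maps without monochromatic copies of `DX` and a finite colouring there is a
copy of `D`, monochromatic in the finite colouring, on which the maps coincide only at pairs in
`E`. -/
def Can {X : Type} (DX : X → X → ℝ) (C : Type) {F : Type} (D : F → F → ℝ) (E : F → F → Prop) :
    Prop :=
  ∀ (κ Λ : Type) [Finite κ] [Finite Λ], ∃ (ι : Type) (_ : Fintype ι) (W : Finset (ι → ℝ)),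
    ∀ (h : (ι → ℝ) → κ) (c : Λ → (ι → ℝ) → C), (∀ l, NoMono DX (c l)) →
      ∃ f : F → ι → ℝ, (∀ x, f x ∈ W) ∧ (∀ x y, sq (f x) (f y) = D x y) ∧
        (∀ x y, h (f x) = h (f y)) ∧ ∀ l x y, c l (f x) = c l (f y) → E x y

section

variable {X : Type} {DX : X → X → ℝ} {C : Type} {F : Type}

theorem Can.of_good {D : F → F → ℝ} (h : Good D) : Can DX C D (fun _ _ => True) := by
  intro κ Λ _ _
  obtain ⟨ι, i, W, H⟩ := h κ
  refine ⟨ι, i, W, fun h c _ => ?_⟩
  obtain ⟨f, m, d, e⟩ := H h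
  exact ⟨f, m, d, e, fun _ _ _ _ => trivial⟩

theorem Can.mono {D : F → F → ℝ} {E E' : F → F → Prop} (h : Can DX C D E)
    (hE : ∀ x y, E x y → E' x y) : Can DX C D E' := by
  intro κ Λ _ _
  obtain ⟨ι, i, W, H⟩ := h κ Λ
  refine ⟨ι, i, W, fun h c hc => ?_⟩
  obtain ⟨f, m, d, e, g⟩ := H h c hc
  exact ⟨f, m, d, e, fun l x y hl => hE _ _ (g l x y hl)⟩

theorem Can.congr {D D' : F → F → ℝ} {E : F → F → Prop} (h : Can DX C D E)
    (e : ∀ x y, D x y = D' x y) : Can DX C D' E := by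
  have : D = D' := by funext x y; exact e x y
  exact this ▸ h

theorem Can.comap {G : Type} {D : F → F → ℝ} {E : F → F → Prop} (h : Can DX C D E)
    (π : G → F) : Can DX C (fun x y => D (π x) (π y)) (fun x y => E (π x) (π y)) := by
  intro κ Λ _ _
  obtain ⟨ι, i, W, H⟩ := h κ Λ
  refine ⟨ι, i, W, fun h c hc => ?_⟩
  obtain ⟨f, m, d, e, g⟩ := H h c hc
  exact ⟨fun x => f (π x), fun x => m _, fun x y => d _ _, fun x y => e _ _,
    fun l x y hl => g l _ _ hl⟩

theorem Can.add [Finite F] {D₁ D₂ : F → F → ℝ} {E₁ E₂ : F → F → Prop} (h₁ : Can DX C D₁ E₁)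
    (h₂ : Can DX C D₂ E₂) :
    Can DX C (fun x y => D₁ x y + D₂ x y) (fun x y => E₁ x y ∧ E₂ x y) := by
  classical
  intro κ Λ _ _
  obtain ⟨ι₂, i₂, W₂, H₂⟩ := h₂ (κ × (Λ → F → F → Fin 3)) Λ
  obtain ⟨ι₁, i₁, W₁, H₁⟩ := h₁ ((↥W₂ → κ) × (Λ → ↥W₂ → ↥W₂ → Prop)) (Λ × ↥W₂)
  refine ⟨ι₁ ⊕ ι₂, inferInstance, (W₁ ×ˢ W₂).image (fun p => Sum.elim p.1 p.2),
    fun h c hc => ?_⟩
  rcases isEmpty_or_nonempty F with hF | ⟨⟨x₀⟩⟩
  · exact ⟨fun b => (hF.false b).elim, fun b => (hF.false b).elim, fun b => (hF.false b).elim,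
      fun b => (hF.false b).elim, fun _ b => (hF.false b).elim⟩
  · obtain ⟨a, ma, da, ha, ca⟩ := H₁
      (fun u => (fun w => h (Sum.elim u w), fun l w w' =>
        c l (Sum.elim u (w : ι₂ → ℝ)) = c l (Sum.elim u (w' : ι₂ → ℝ))))
      (fun p u => c p.1 (Sum.elim u p.2)) (fun p => (hc p.1).left _)
    have ha1 : ∀ x y, ∀ w : ↥W₂, h (Sum.elim (a x) w) = h (Sum.elim (a y) w) := fun x y w =>
      congrFun (congrArg Prod.fst (ha x y)) w
    have ha2 : ∀ x y l, ∀ w w' : ↥W₂,
        (c l (Sum.elim (a x) w) = c l (Sum.elim (a x) w') ↔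
          c l (Sum.elim (a y) w) = c l (Sum.elim (a y) w')) := fun x y l w w' =>
      iff_of_eq (congrFun (congrFun (congrFun (congrArg Prod.snd (ha x y)) l) w) w')
    have h3 : ∀ l x y, ∃ k : C → Fin 3, ∀ w w' : ↥W₂,
        k (c l (Sum.elim (a x) w)) = k (c l (Sum.elim (a x) w')) →
        c l (Sum.elim (a x) w) = c l (Sum.elim (a y) w') →
        c l (Sum.elim (a x) w) = c l (Sum.elim (a x) w') := fun l x y =>
      three (fun w : ↥W₂ => c l (Sum.elim (a x) w)) (fun w : ↥W₂ => c l (Sum.elim (a y) w))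
        (ha2 x y l)
    choose k hk using h3
    obtain ⟨b, mb, db, hb, cb⟩ := H₂
      (fun w => (h (Sum.elim (a x₀) w), fun l x y => k l x y (c l (Sum.elim (a x) w))))
      (fun l w => c l (Sum.elim (a x₀) w)) (fun l => (hc l).right _)
    refine ⟨fun x => Sum.elim (a x) (b x), fun x => ?_, fun x y => ?_, ?_, fun l x y e => ?_⟩
    · exact Finset.mem_image.mpr ⟨(a x, b x), Finset.mem_product.mpr ⟨ma x, mb x⟩, rfl⟩
    · rw [sq_sumElim, da, db]
    · intro x y
      have e1 := ha1 x x₀ ⟨b x, mb x⟩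
      have e2 := ha1 y x₀ ⟨b y, mb y⟩
      have e3 := congrArg Prod.fst (hb x y)
      exact e1.trans (e3.trans e2.symm)
    · have e3 := congrFun (congrFun (congrFun (congrArg Prod.snd (hb x y)) l) x) y
      have e4 := hk l x y ⟨b x, mb x⟩ ⟨b y, mb y⟩ e3 e
      refine ⟨ca (l, ⟨b y, mb y⟩) x y (e4.symm.trans e), cb l x y ?_⟩
      exact (ha2 x x₀ l ⟨b x, mb x⟩ ⟨b y, mb y⟩).mp e4

end

theorem Good.comap {B G : Type} {D : B → B → ℝ} (h : Good D) (π : G → B) :
    Good (fun x y => D (π x) (π y)) := by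
  intro κ _
  obtain ⟨ι, i, W, H⟩ := h κ
  refine ⟨ι, i, W, fun c => ?_⟩
  obtain ⟨f, m, d, e⟩ := H c
  exact ⟨fun x => f (π x), fun x => m _, fun x y => d _ _, fun x y => e _ _⟩

end Pool.Agent.N479.CR
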