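import Pool.Agent.N479.CR.Pair

set_option autoImplicit false

/-! # Powers of a family -/

namespace Pool.Agent.N479.CR

open Finset Pool.Agent.N479.ER

/-- a copy of a family without one of its points extends to a copy of the family -/
theorem ext_point {F δ ι : Type} [Finite F] [Fintype δ] [Fintype ι] (x : F → δ → ℝ) (z : F)
    (f₀ : {f : F // f ≠ z}) (A : {f : F // f ≠ z} → ι → ℝ)
    (hA : ∀ a b, sq (A a) (A b) = sq (x a) (x b)) :
    ∃ q : ι ⊕ δ → ℝ, ∀ a, sq q (Sum.elim (A a) 0) = sq (x z) (x a) := by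
  have : Nonempty {f : F // f ≠ z} := ⟨f₀⟩
  obtain ⟨q, hq, -⟩ := extend (P := {f : F // f ≠ z}) (B := Unit) (fun a => x a) A
    (fun a b => (hA a b).symm) (fun _ => x z)
  exact ⟨q (), fun a => hq () a⟩

/-- first `j` coordinates equal to `z`, the others different from `z` -/
def GZ {F : Type} {m : ℕ} (z : F) (j : ℕ) (w : Fin m → F) : Prop :=
  ∀ i : Fin m, ((i : ℕ) < j → w i = z) ∧ (j ≤ (i : ℕ) → w i ≠ z)

lemma GZ.tail {F : Type} {m : ℕ} {z : F} {j : ℕ} {w : Fin (m + 1) → F} (h : GZ z (j + 1) w) :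
    w 0 = z ∧ GZ z j (Fin.tail w) := by
  refine ⟨(h 0).1 (by simp), fun i => ⟨fun hi => ?_, fun hi => ?_⟩⟩
  · exact (h i.succ).1 (by simp; omega)
  · exact (h i.succ).2 (by simp; omega)

lemma GZ.tail_zero {F : Type} {m : ℕ} {z : F} {w : Fin (m + 1) → F} (h : GZ z 0 w) :
    w 0 ≠ z ∧ GZ z 0 (Fin.tail w) := by
  refine ⟨(h 0).2 (by simp), fun i => ⟨fun hi => absurd hi (by omega), fun _ => ?_⟩⟩
  exact (h i.succ).2 (by simp)

theorem grid {X C F δ : Type} [Finite F] [Fintype δ] (DX : X → X → ℝ) (x : F → δ → ℝ) (z : F)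
    (f₀ : {f : F // f ≠ z})
    (HF : Can DX C (fun a b : {f : F // f ≠ z} => sq (x a) (x b)) Eq) (m : ℕ) :
    ∀ (κ Λ : Type) [Finite κ] [Finite Λ], ∃ (ι : Type) (_ : Fintype ι) (W : Finset (ι → ℝ)),
    ∀ (h : (ι → ℝ) → κ) (c : Λ → (ι → ℝ) → C), (∀ l, NoMono DX (c l)) →
      ∃ φ : (Fin m → F) → ι → ℝ, (∀ w, φ w ∈ W) ∧
        (∀ w w', sq (φ w) (φ w') = ∑ i, sq (x (w i)) (x (w' i))) ∧
        ∀ j ≤ m, ∀ w w', GZ z j w → GZ z j w' → h (φ w) = h (φ w') ∧
          ∀ l, c l (φ w) = c l (φ w') → w = w' := by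
  classical
  induction m with
  | zero =>
    intro κ Λ _ _
    refine ⟨Empty, inferInstance, {0}, fun h c _ => ⟨fun _ => 0, fun _ => by simp, fun w w' => ?_,
      fun j _ w w' _ _ => ⟨rfl, fun _ _ => Subsingleton.elim _ _⟩⟩⟩
    rw [sq_self]
    simp
  | succ m ih =>
    intro κ Λ _ _
    have := Fintype.ofFinite F
    obtain ⟨ι', i', W', H'⟩ := ih
      (κ × κ × (Λ → {f : F // f ≠ z} → {f : F // f ≠ z} → Fin 3)) (Λ ⊕ Λ)
    obtain ⟨ι₁, i₁, W₁, H₁⟩ := HF ((↥W' → κ) × (Λ → ↥W' → ↥W' → Prop)) (Λ × ↥W')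
    -- the extra point
    have hQ : ∀ A : {f : F // f ≠ z} → ι₁ → ℝ, ∃ q : ι₁ ⊕ δ → ℝ,
        (∀ a b, sq (A a) (A b) = sq (x a) (x b)) →
          ∀ a, sq q (Sum.elim (A a) 0) = sq (x z) (x a) := by
      intro A
      by_cases hA : ∀ a b, sq (A a) (A b) = sq (x a) (x b)
      · obtain ⟨q, hq⟩ := ext_point x z f₀ A hA
        exact ⟨q, fun _ => hq⟩
      · exact ⟨0, fun h => absurd h hA⟩
    choose Q hQ using hQ
    let V₁ : Finset (ι₁ ⊕ δ → ℝ) := (W₁.image (fun u => Sum.elim u 0)) ∪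
      (Finset.univ.image (fun A : {f : F // f ≠ z} → ↥W₁ => Q (fun p => A p)))
    refine ⟨(ι₁ ⊕ δ) ⊕ ι', inferInstance, (V₁ ×ˢ W').image (fun p => Sum.elim p.1 p.2),
      fun h c hc => ?_⟩
    obtain ⟨A', mA, dA, hA, cA⟩ := H₁
      (fun u => (fun w => h (Sum.elim (Sum.elim u 0) w), fun l w w' =>
        c l (Sum.elim (Sum.elim u 0) (w : ι' → ℝ)) = c l (Sum.elim (Sum.elim u 0) (w' : ι' → ℝ))))
      (fun p u => c p.1 (Sum.elim (Sum.elim u 0) p.2)) (fun p => ((hc p.1).left _).left _)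
    have dA' : ∀ a b, sq (A' a) (A' b) = sq (x a) (x b) := dA
    let A : F → ι₁ ⊕ δ → ℝ := fun f => if hf : f = z then Q A' else Sum.elim (A' ⟨f, hf⟩) 0
    have Az : A z = Q A' := by simp [A]
    have Af : ∀ f : {f : F // f ≠ z}, A f = Sum.elim (A' f) 0 := by
      intro f
      simp only [A]
      rw [dif_neg f.2]
    have AV : ∀ f, A f ∈ V₁ := by
      intro f
      by_cases hf : f = z
      · rw [hf, Az]
        exact Finset.mem_union_right _ (Finset.mem_image.mpr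
          ⟨fun p => ⟨A' p, mA p⟩, Finset.mem_univ _, rfl⟩)
      · have e := Af ⟨f, hf⟩
        simp only at e
        rw [e]
        exact Finset.mem_union_left _ (Finset.mem_image.mpr ⟨A' ⟨f, hf⟩, mA _, rfl⟩)
    have Ad : ∀ f g, sq (A f) (A g) = sq (x f) (x g) := by
      intro f g
      by_cases hf : f = z
      · by_cases hg : g = z
        · rw [hf, hg, sq_self, sq_self]
        · have e := Af ⟨g, hg⟩
          simp only at e
          rw [hf, Az, e]
          exact hQ A' dA' ⟨g, hg⟩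
      · have e := Af ⟨f, hf⟩
        simp only at e
        by_cases hg : g = z
        · rw [hg, Az, e, sq_comm, sq_comm (x f)]
          exact hQ A' dA' ⟨f, hf⟩
        · have e' := Af ⟨g, hg⟩
          simp only at e'
          rw [e, e', sq_sumElim, sq_self, add_zero, dA']
    have ha1 : ∀ p q : {f : F // f ≠ z}, ∀ w : ↥W', h (Sum.elim (A p) w) = h (Sum.elim (A q) w) := by
      intro p q w
      rw [Af, Af]
      exact congrFun (congrArg Prod.fst (hA p q)) w
    have ha2 : ∀ p q : {f : F // f ≠ z}, ∀ l, ∀ w w' : ↥W',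
        (c l (Sum.elim (A p) w) = c l (Sum.elim (A p) w') ↔
          c l (Sum.elim (A q) w) = c l (Sum.elim (A q) w')) := by
      intro p q l w w'
      rw [Af, Af]
      exact iff_of_eq (congrFun (congrFun (congrFun (congrArg Prod.snd (hA p q)) l) w) w')
    have ha3 : ∀ p q : {f : F // f ≠ z}, ∀ l, ∀ w : ↥W',
        c l (Sum.elim (A p) w) = c l (Sum.elim (A q) w) → p = q := by
      intro p q l w e
      rw [Af, Af] at e
      exact cA (l, w) p q e
    have h3 : ∀ l, ∀ p q : {f : F // f ≠ z}, ∃ k : C → Fin 3, ∀ w w' : ↥W',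
        k (c l (Sum.elim (A p) w)) = k (c l (Sum.elim (A p) w')) →
        c l (Sum.elim (A p) w) = c l (Sum.elim (A q) w') →
        c l (Sum.elim (A p) w) = c l (Sum.elim (A p) w') := fun l p q =>
      three (fun w : ↥W' => c l (Sum.elim (A p) w)) (fun w : ↥W' => c l (Sum.elim (A q) w))
        (ha2 p q l)
    choose k hk using h3
    obtain ⟨φ, mφ, dφ, hφ⟩ := H'
      (fun w => (h (Sum.elim (A z) w), h (Sum.elim (A f₀) w),
        fun l p q => k l p q (c l (Sum.elim (A p) w))))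
      (fun l w => match l with
        | Sum.inl l => c l (Sum.elim (A z) w)
        | Sum.inr l => c l (Sum.elim (A f₀) w))
      (fun l => match l with
        | Sum.inl l => (hc l).right _
        | Sum.inr l => (hc l).right _)
    refine ⟨fun w => Sum.elim (A (w 0)) (φ (Fin.tail w)), fun w => ?_, fun w w' => ?_, ?_⟩
    · exact Finset.mem_image.mpr ⟨(A (w 0), φ (Fin.tail w)),
        Finset.mem_product.mpr ⟨AV _, mφ _⟩, rfl⟩
    · rw [sq_sumElim, Ad, dφ, Fin.sum_univ_succ]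
      rfl
    · intro j hj w w' hw hw'
      rcases Nat.eq_zero_or_pos j with rfl | hj0
      · obtain ⟨w0, wt⟩ := hw.tail_zero
        obtain ⟨w0', wt'⟩ := hw'.tail_zero
        obtain ⟨e1, e2⟩ := hφ 0 (Nat.zero_le _) _ _ wt wt'
        have e1b : h (Sum.elim (A f₀) (φ (Fin.tail w))) = h (Sum.elim (A f₀) (φ (Fin.tail w'))) :=
          congrArg (fun t => t.2.1) e1
        constructor
        · have g1 := ha1 ⟨w 0, w0⟩ f₀ ⟨φ (Fin.tail w), mφ _⟩
          have g2 := ha1 ⟨w' 0, w0'⟩ f₀ ⟨φ (Fin.tail w'), mφ _⟩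
          exact g1.trans (e1b.trans g2.symm)
        · intro l hcl
          have e1c : k l ⟨w 0, w0⟩ ⟨w' 0, w0'⟩ (c l (Sum.elim (A (w 0)) (φ (Fin.tail w))))
              = k l ⟨w 0, w0⟩ ⟨w' 0, w0'⟩ (c l (Sum.elim (A (w 0)) (φ (Fin.tail w')))) :=
            congrFun (congrFun (congrFun (congrArg (fun t => t.2.2) e1) l) ⟨w 0, w0⟩) ⟨w' 0, w0'⟩
          have hcl' : c l (Sum.elim (A (w 0)) (φ (Fin.tail w)))
              = c l (Sum.elim (A (w' 0)) (φ (Fin.tail w'))) := hcl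
          have e4 := hk l ⟨w 0, w0⟩ ⟨w' 0, w0'⟩ ⟨φ (Fin.tail w), mφ _⟩ ⟨φ (Fin.tail w'), mφ _⟩
            e1c hcl'
          simp only at e4
          have e5 := (ha2 ⟨w 0, w0⟩ f₀ l ⟨φ (Fin.tail w), mφ _⟩ ⟨φ (Fin.tail w'), mφ _⟩).mp e4
          have e6 : Fin.tail w = Fin.tail w' := e2 (Sum.inr l) e5
          have e7 := ha3 ⟨w 0, w0⟩ ⟨w' 0, w0'⟩ l ⟨φ (Fin.tail w'), mφ _⟩ (e4.symm.trans hcl')
          have e8 : w 0 = w' 0 := congrArg Subtype.val e7
          rw [← Fin.cons_self_tail w, ← Fin.cons_self_tail w', e6, e8]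
      · obtain ⟨j, rfl⟩ : ∃ j', j = j' + 1 := ⟨j - 1, by omega⟩
        obtain ⟨w0, wt⟩ := hw.tail
        obtain ⟨w0', wt'⟩ := hw'.tail
        obtain ⟨e1, e2⟩ := hφ j (by omega) _ _ wt wt'
        have e1a : h (Sum.elim (A z) (φ (Fin.tail w))) = h (Sum.elim (A z) (φ (Fin.tail w'))) :=
          congrArg Prod.fst e1
        constructor
        · simp only [w0, w0']
          exact e1a
        · intro l hcl
          simp only [w0, w0'] at hcl
          have e6 : Fin.tail w = Fin.tail w' := e2 (Sum.inl l) hcl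
          rw [← Fin.cons_self_tail w, ← Fin.cons_self_tail w', e6, w0, w0']

end Pool.Agent.N479.CR
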