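import Pool.Agent.N479.CR.Scale

set_option autoImplicit false

/-! # Every family with the finite property has copies without coincidences -/

namespace Pool.Agent.N479.CR

open Finset Pool.Agent.N479.ER

theorem main_aux {X C δ₀ : Type} [Finite X] [Fintype δ₀] (y : X → δ₀ → ℝ) (x₀ : X)
    (hy : Good (fun a b => sq (y a) (y b))) (n : ℕ) :
    ∀ (F δ : Type) [Finite F] [Fintype δ] (x : F → δ → ℝ), Nat.card F ≤ n →
      (∀ a b, a ≠ b → 0 < sq (x a) (x b)) → Good (fun a b => sq (x a) (x b)) →
      Can (fun a b => sq (y a) (y b)) C (fun a b => sq (x a) (x b)) Eq := by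
  classical
  induction n with
  | zero =>
    intro F δ _ _ x hn _ hx
    have hF : IsEmpty F := by
      rcases Finite.card_eq_zero_iff.mp (Nat.le_zero.mp hn) with h
      exact h
    exact (Can.of_good hx).mono fun a _ _ => (hF.false a).elim
  | succ n ih =>
    intro F δ _ _ x hn hpos hx
    rcases subsingleton_or_nontrivial F with hs | hnt
    · exact (Can.of_good hx).mono fun a b _ => Subsingleton.elim a b
    · obtain ⟨p, q, hpq⟩ := hnt.exists_pair_ne
      by_cases hthree : ∃ s, s ≠ p ∧ s ≠ q
      · obtain ⟨s, hsp, hsq⟩ := hthree
        have ht0 : (0 : ℝ) ≤ 1 / 3 := by norm_num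
        have hscaled : Good (fun a b => sq ((fun f : F => √(1 / 3 : ℝ) • x f) a)
            ((fun f : F => √(1 / 3 : ℝ) • x f) b)) :=
          (Good.smul hx ht0).congr fun a b => by
            simp only
            rw [sq_smul, Real.sq_sqrt ht0]
        have key : ∀ z w : F, w ≠ z →
            Can (fun a b => sq (y a) (y b)) C (fun a b => (1 / 3 : ℝ) * sq (x a) (x b))
              (fun a b => a = b ∨ a = z ∨ b = z) := by
          intro z w hwz
          have h1 := exact_scale (fun a b => sq (y a) (y b)) (fun f : F => √(1 / 3 : ℝ) • x f) z
            (C := C) ⟨w, hwz⟩ hscaled (by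
              intro ν hν
              have hν' : 0 ≤ ν * (1 / 3) := by positivity
              have hν'' : 0 < ν * (1 / 3) := by positivity
              have h2 := ih {f : F // f ≠ z} δ (fun f => √(ν * (1 / 3)) • x f) (by
                  have := Finite.card_subtype_lt (p := fun f : F => f ≠ z) (x := z) (by simp)
                  omega)
                (by
                  intro a b hab
                  rw [sq_smul, Real.sq_sqrt hν']
                  exact mul_pos hν'' (hpos a b (fun e => hab (Subtype.ext e))))
                ((Good.comap (Good.smul hx hν') (fun f : {f : F // f ≠ z} => (f : F))).congr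
                  fun a b => by
                    rw [sq_smul, Real.sq_sqrt hν'])
              exact h2.congr fun a b => by
                rw [sq_smul, sq_smul, Real.sq_sqrt hν', Real.sq_sqrt ht0]
                ring)
          exact h1.congr fun a b => by
            rw [sq_smul, Real.sq_sqrt ht0]
        refine ((((key p q hpq.symm).add (key q p hpq)).add (key s p hsp.symm)).congr
          fun a b => ?_).mono fun a b hE => ?_
        · ring
        · obtain ⟨⟨h1, h2⟩, h3⟩ := hE
          by_contra hab
          have h1' := h1.resolve_left hab
          have h2' := h2.resolve_left hab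
          have h3' := h3.resolve_left hab
          rcases h1' with rfl | rfl
          · rcases h2' with h2' | h2'
            · exact hpq h2'
            · subst h2'
              rcases h3' with h3' | h3'
              · exact hsp h3'.symm
              · exact hsq h3'.symm
          · rcases h2' with h2' | h2'
            · subst h2'
              rcases h3' with h3' | h3'
              · exact hsq h3'.symm
              · exact hsp h3'.symm
            · exact hpq h2'
      · push Not at hthree
        have hall : ∀ f, f = p ∨ f = q := by
          intro f
          by_cases hf : f = p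
          · exact Or.inl hf
          · exact Or.inr (hthree f hf)
        have h1 := (pair_can C y x₀ hy (sq (x p) (x q)) (hpos p q hpq)).comap
          (fun f : F => decide (f = p))
        refine (h1.congr fun a b => ?_).mono fun a b hE => ?_
        · rcases hall a with rfl | rfl <;> rcases hall b with rfl | rfl
          · simp [sq_self]
          · simp [hpq.symm]
          · simp [hpq.symm, sq_comm]
          · simp [sq_self]
        · rcases hall a with rfl | rfl <;> rcases hall b with rfl | rfl
          · rfl
          · simp [hpq.symm] at hE
          · simp [hpq.symm] at hE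
          · rfl

/-- canonical version for a single family -/
theorem canonical {X C δ₀ : Type} [Finite X] [Fintype δ₀] (y : X → δ₀ → ℝ) (x₀ : X)
    (hy : Good (fun a b => sq (y a) (y b))) (hne : ∀ a b, a ≠ b → 0 < sq (y a) (y b)) :
    ∃ (ι : Type) (_ : Fintype ι), ∀ c : (ι → ℝ) → C,
      ∃ f : X → ι → ℝ, (∀ a b, sq (f a) (f b) = sq (y a) (y b)) ∧
        ((∀ a b, c (f a) = c (f b)) ∨ ∀ a b, c (f a) = c (f b) → a = b) := by
  obtain ⟨ι, i, W, H⟩ := main_aux (C := C) y x₀ hy (Nat.card X) X δ₀ y le_rfl hne hy Unit Unit
  refine ⟨ι, i, fun c => ?_⟩
  by_cases hc : NoMono (fun a b => sq (y a) (y b)) c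
  · obtain ⟨f, -, d, -, e⟩ := H (fun _ => ()) (fun _ => c) (fun _ => hc)
    exact ⟨f, d, Or.inr fun a b hab => e () a b hab⟩
  · unfold NoMono at hc
    push Not at hc
    obtain ⟨f, d, e⟩ := hc
    exact ⟨f, d, Or.inl e⟩

end Pool.Agent.N479.CR
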