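import Pool.Agent.N479.CR.Conn

set_option autoImplicit false

/-! # Pairs at a given distance -/

namespace Pool.Agent.N479.CR

open Finset Pool.Agent.N479.ER

theorem pair_aux {X C δ Λ : Type} [Finite X] [Fintype δ] [Finite Λ] (x : X → δ → ℝ) (x₀ : X)
    (hx : Good (fun a b => sq (x a) (x b))) (s : Finset Λ) :
    ∀ (Δ : ℝ), 0 < Δ → ∀ (κ : Type) [Finite κ], ∃ (ι : Type) (_ : Fintype ι) (W : Finset (ι → ℝ)),
      ∀ (h : (ι → ℝ) → κ) (c : Λ → (ι → ℝ) → C),
        (∀ l, NoMono (fun a b => sq (x a) (x b)) (c l)) →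
      ∃ f : Bool → ι → ℝ, (∀ b, f b ∈ W) ∧ (∀ a b, sq (f a) (f b) = if a = b then 0 else Δ) ∧
        (∀ a b, h (f a) = h (f b)) ∧ ∀ l ∈ s, c l (f false) ≠ c l (f true) := by
  classical
  induction s using Finset.induction_on with
  | empty =>
    intro Δ hΔ κ _
    have hG : Good (fun a b : Bool => if a = b then (0 : ℝ) else Δ) :=
      (Good.cut (fun b : Bool => b = true) hΔ.le).congr (by
        intro a b
        cases a <;> cases b <;> simp)
    obtain ⟨ι, i, W, H⟩ := hG κ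
    refine ⟨ι, i, W, fun h c _ => ?_⟩
    obtain ⟨f, m, d, e⟩ := H h
    exact ⟨f, m, d, e, by simp⟩
  | insert l₀ s _ ih =>
    intro Δ hΔ κ _
    obtain ⟨Y, _, δ', _, y, e, hy, dy, jy⟩ := joined (Δ / 2) (by positivity) x hx
    obtain ⟨ι₂, i₂, W₂, H₂⟩ := ih (Δ / 2) (by positivity) (κ × (Y × Y) × (Λ → Y → Y → Fin 3))
    obtain ⟨ι₁, i₁, W₁, H₁⟩ := hy ((↥W₂ → κ) × (Λ → ↥W₂ → ↥W₂ → Prop))
    refine ⟨ι₁ ⊕ ι₂, inferInstance, (W₁ ×ˢ W₂).image (fun p => Sum.elim p.1 p.2),
      fun h c hc => ?_⟩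
    obtain ⟨a, ma, da, ha⟩ := H₁
      (fun u => (fun w => h (Sum.elim u w), fun l w w' =>
        c l (Sum.elim u (w : ι₂ → ℝ)) = c l (Sum.elim u (w' : ι₂ → ℝ))))
    have da' : ∀ p q, ER.sq (a p) (a q) = ER.sq (y p) (y q) := da
    have ha1 : ∀ p q, ∀ w : ↥W₂, h (Sum.elim (a p) w) = h (Sum.elim (a q) w) := fun p q w =>
      congrFun (congrArg Prod.fst (ha p q)) w
    have ha2 : ∀ p q l, ∀ w w' : ↥W₂,
        (c l (Sum.elim (a p) w) = c l (Sum.elim (a p) w') ↔
          c l (Sum.elim (a q) w) = c l (Sum.elim (a q) w')) := fun p q l w w' =>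
      iff_of_eq (congrFun (congrFun (congrFun (congrArg Prod.snd (ha p q)) l) w) w')
    have h3 : ∀ l p q, ∃ k : C → Fin 3, ∀ w w' : ↥W₂,
        k (c l (Sum.elim (a p) w)) = k (c l (Sum.elim (a p) w')) →
        c l (Sum.elim (a p) w) = c l (Sum.elim (a q) w') →
        c l (Sum.elim (a p) w) = c l (Sum.elim (a p) w') := fun l p q =>
      three (fun w : ↥W₂ => c l (Sum.elim (a p) w)) (fun w : ↥W₂ => c l (Sum.elim (a q) w))
        (ha2 p q l)
    choose k hk using h3
    have hedge : ∀ w : ι₂ → ℝ, ∃ E : Y × Y, sq (y E.1) (y E.2) = Δ / 2 ∧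
        c l₀ (Sum.elim (a E.1) w) ≠ c l₀ (Sum.elim (a E.2) w) := by
      intro w
      by_contra hcon
      push Not at hcon
      obtain ⟨p, q, hpq⟩ := hc l₀ (fun p => Sum.elim (a (e p)) w) (fun p q => by
        rw [sq_sumElim, sq_self, add_zero, da', dy])
      exact hpq (jy C (fun v => c l₀ (Sum.elim (a v) w)) (fun u v huv => hcon (u, v) huv) p q)
    choose E hE1 hE2 using hedge
    obtain ⟨b, mb, db, hb, cb⟩ := H₂
      (fun w => (h (Sum.elim (a (e x₀)) w), E w, fun l p q => k l p q (c l (Sum.elim (a p) w))))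
      (fun l w => c l (Sum.elim (a (e x₀)) w)) (fun l => (hc l).right _)
    have hEE : E (b false) = E (b true) :=
      congrArg (fun t => t.2.1) (hb false true)
    set u := (E (b true)).1 with hu
    set v := (E (b true)).2 with hv
    have huv : sq (y u) (y v) = Δ / 2 := hE1 _
    have hvu : sq (y v) (y u) = Δ / 2 := by rw [sq_comm]; exact huv
    let g : Bool → Y := fun t => if t then v else u
    have hg : ∀ s t, sq (y (g s)) (y (g t)) = if s = t then 0 else Δ / 2 := by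
      intro s t
      cases s <;> cases t <;> simp [g, huv, hvu, sq_self]
    refine ⟨fun t => Sum.elim (a (g t)) (b t), fun t => ?_, fun s t => ?_, ?_, fun l hl hcl => ?_⟩
    · exact Finset.mem_image.mpr ⟨(a (g t), b t), Finset.mem_product.mpr ⟨ma _, mb t⟩, rfl⟩
    · rw [sq_sumElim, da', db, hg]
      split_ifs
      · ring
      · ring
    · intro s t
      have e1 := ha1 (g s) (e x₀) ⟨b s, mb s⟩
      have e2 := ha1 (g t) (e x₀) ⟨b t, mb t⟩
      have e3 := congrArg Prod.fst (hb s t)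
      exact e1.trans (e3.trans e2.symm)
    · have e3 : k l u v (c l (Sum.elim (a u) (b false))) = k l u v (c l (Sum.elim (a u) (b true))) :=
        congrFun (congrFun (congrFun (congrArg (fun t => t.2.2) (hb false true)) l) u) v
      have hcl' : c l (Sum.elim (a u) (b false)) = c l (Sum.elim (a v) (b true)) := hcl
      have e4 := hk l u v ⟨b false, mb false⟩ ⟨b true, mb true⟩ e3 hcl'
      rcases Finset.mem_insert.mp hl with rfl | hl
      · exact hE2 (b true) (e4.symm.trans hcl')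
      · exact cb l hl ((ha2 u (e x₀) l ⟨b false, mb false⟩ ⟨b true, mb true⟩).mp e4)

/-- two points at a given distance -/
theorem pair_can {X : Type} (C : Type) {δ : Type} [Finite X] [Fintype δ] (x : X → δ → ℝ) (x₀ : X)
    (hx : Good (fun a b => sq (x a) (x b))) (Δ : ℝ) (hΔ : 0 < Δ) :
    Can (fun a b => sq (x a) (x b)) C (fun a b : Bool => if a = b then 0 else Δ) Eq := by
  intro κ Λ _ _
  have := Fintype.ofFinite Λ
  obtain ⟨ι, i, W, H⟩ := pair_aux (C := C) (Λ := Λ) x x₀ hx Finset.univ Δ hΔ κ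
  refine ⟨ι, i, W, fun h c hc => ?_⟩
  obtain ⟨f, m, d, e, g⟩ := H h c hc
  refine ⟨f, m, d, e, fun l s t hst => ?_⟩
  have g' := g l (Finset.mem_univ _)
  cases s <;> cases t
  · rfl
  · exact absurd hst g'
  · exact absurd hst.symm g'
  · rfl

end Pool.Agent.N479.CR
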