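import Pool.Agent.N479.CR.Grid

set_option autoImplicit false

/-! # From powers to the exact scale -/

namespace Pool.Agent.N479.CR

open Finset Pool.Agent.N479.ER

lemma card_window (r j j' : ℕ) (h2 : j' ≤ r) :
    ((Finset.univ : Finset (Fin r)).filter (fun i : Fin r => j ≤ (i : ℕ) ∧ (i : ℕ) < j')).card
      = j' - j := by
  classical
  have h : ((Finset.univ : Finset (Fin r)).filter
      (fun i : Fin r => j ≤ (i : ℕ) ∧ (i : ℕ) < j')).map Fin.valEmbedding = Finset.Ico j j' := by
    ext a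
    simp only [Finset.mem_map, Finset.mem_filter, Finset.mem_univ, true_and,
      Fin.valEmbedding_apply, Finset.mem_Ico]
    constructor
    · rintro ⟨i, hi, rfl⟩
      exact hi
    · intro ha
      exact ⟨⟨a, by omega⟩, ha, rfl⟩
  rw [← Finset.card_map Fin.valEmbedding, h, Nat.card_Ico]

/-- copies at one of several scales, in one finite colour altogether -/
theorem scales {X C F δ : Type} [Finite F] [Fintype δ] (DX : X → X → ℝ) (x : F → δ → ℝ) (z : F)
    (f₀ : {f : F // f ≠ z})
    (HF : Can DX C (fun a b : {f : F // f ≠ z} => sq (x a) (x b)) Eq) (r : ℕ) :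
    ∀ (κ κ' Λ : Type) [Finite κ] [Finite κ'] [Finite Λ], Nat.card κ ≤ r →
      ∃ (ι : Type) (_ : Fintype ι) (W : Finset (ι → ℝ)),
    ∀ (h : (ι → ℝ) → κ) (h' : (ι → ℝ) → κ') (c : Λ → (ι → ℝ) → C), (∀ l, NoMono DX (c l)) →
      ∃ (i : Fin r) (B : F → ι → ℝ), (∀ b, B b ∈ W) ∧
        (∀ a b, sq (B a) (B b) = ((i : ℝ) + 1) * sq (x a) (x b)) ∧
        (∀ a b, h (B a) = h (B b)) ∧
        (∀ a b, a ≠ z → b ≠ z → h' (B a) = h' (B b)) ∧
        ∀ l a b, a ≠ z → b ≠ z → c l (B a) = c l (B b) → a = b := by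
  classical
  intro κ κ' Λ _ _ _ hr
  obtain ⟨ι, i, W, H⟩ := grid DX x z f₀ HF r (κ × κ') Λ
  refine ⟨ι, i, W, fun h h' c hc => ?_⟩
  obtain ⟨φ, mφ, dφ, hφ⟩ := H (fun w => (h w, h' w)) c hc
  have := Fintype.ofFinite κ
  let rep : ℕ → Fin r → F := fun j i => if (i : ℕ) < j then z else f₀
  obtain ⟨p, q, hpq, epq⟩ := Fintype.exists_ne_map_eq_of_card_lt
    (fun j : Fin (r + 1) => h (φ (rep j))) (by
      rw [Fintype.card_fin, ← Nat.card_eq_fintype_card]
      omega)
  obtain ⟨j, j', hjj, hj', ejj⟩ : ∃ j j' : ℕ, j < j' ∧ j' ≤ r ∧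
      h (φ (rep j)) = h (φ (rep j')) := by
    rcases lt_or_gt_of_ne (fun e : (p : ℕ) = q => hpq (Fin.ext e)) with hlt | hlt
    · exact ⟨p, q, hlt, by omega, epq⟩
    · exact ⟨q, p, hlt, by omega, epq.symm⟩
  have hrep : ∀ j, GZ z j (rep j) := by
    intro j i
    constructor
    · intro hi
      simp [rep, hi]
    · intro hi
      have : ¬ (i : ℕ) < j := by omega
      simp only [rep, this, if_false]
      exact f₀.2
  let v : F → Fin r → F := fun a i => if (i : ℕ) < j then z else if (i : ℕ) < j' then a else f₀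
  have hv1 : ∀ a, a ≠ z → GZ z j (v a) := by
    intro a ha i
    constructor
    · intro hi
      simp [v, hi]
    · intro hi
      have h1 : ¬ (i : ℕ) < j := by omega
      simp only [v, h1, if_false]
      split_ifs
      · exact ha
      · exact f₀.2
  have hv2 : GZ z j' (v z) := by
    intro i
    constructor
    · intro hi
      simp [v, hi]
    · intro hi
      have h1 : ¬ (i : ℕ) < j := by omega
      have h2 : ¬ (i : ℕ) < j' := by omega
      simp only [v, h1, h2, if_false]
      exact f₀.2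
  have hcol : ∀ a, h (φ (v a)) = h (φ (rep j)) := by
    intro a
    by_cases ha : a = z
    · have hva : GZ z j' (v a) := by
        rw [ha]
        exact hv2
      have e1 := (hφ j' hj' _ _ hva (hrep j')).1
      exact (congrArg Prod.fst e1).trans ejj.symm
    · have e1 := (hφ j (by omega) _ _ (hv1 a ha) (hrep j)).1
      exact congrArg Prod.fst e1
  refine ⟨⟨j' - j - 1, by omega⟩, fun a => φ (v a), fun a => mφ _, fun a b => ?_, fun a b => ?_,
    fun a b ha hb => ?_, fun l a b ha hb e => ?_⟩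
  · rw [dφ]
    have h1 : ∀ i : Fin r, sq (x (v a i)) (x (v b i))
        = if (j ≤ (i : ℕ) ∧ (i : ℕ) < j') then sq (x a) (x b) else 0 := by
      intro i
      by_cases h1 : (i : ℕ) < j
      · have h2 : ¬ (j ≤ (i : ℕ) ∧ (i : ℕ) < j') := by omega
        simp only [v, h1, if_true, h2, if_false]
        exact sq_self _
      · by_cases h3 : (i : ℕ) < j'
        · have h2 : j ≤ (i : ℕ) ∧ (i : ℕ) < j' := by omega
          simp only [v, h1, if_false, h3, if_true, h2]
          simp
        · have h2 : ¬ (j ≤ (i : ℕ) ∧ (i : ℕ) < j') := by omega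
          rw [if_neg h2]
          simp only [v, h1, h3, if_false]
          exact sq_self _
    rw [Finset.sum_congr rfl fun i _ => h1 i, ← Finset.sum_filter, Finset.sum_const,
      card_window r j j' hj', nsmul_eq_mul]
    have h4 : j' - j = (j' - j - 1) + 1 := by omega
    have h5 : ((j' - j : ℕ) : ℝ) = ((j' - j - 1 : ℕ) : ℝ) + 1 := by exact_mod_cast h4
    rw [h5]
  · exact (hcol a).trans (hcol b).symm
  · exact congrArg Prod.snd (hφ j (by omega) _ _ (hv1 a ha) (hv1 b hb)).1
  · have e1 := (hφ j (by omega) _ _ (hv1 a ha) (hv1 b hb)).2 l e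
    have e2 := congrFun e1 ⟨j, by omega⟩
    simpa [v, hjj] using e2

/-- the exact scale -/
theorem exact_scale {X C F δ : Type} [Finite F] [Fintype δ] (DX : X → X → ℝ) (x : F → δ → ℝ)
    (z : F) (f₀ : {f : F // f ≠ z}) (hx : Good (fun a b => sq (x a) (x b)))
    (HF : ∀ ν : ℝ, 0 < ν →
      Can DX C (fun a b : {f : F // f ≠ z} => ν * sq (x a) (x b)) Eq) :
    Can DX C (fun a b => sq (x a) (x b)) (fun a b => a = b ∨ a = z ∨ b = z) := by
  classical
  intro κ Λ _ _
  have := Fintype.ofFinite F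
  set r := Nat.card κ with hr
  have hr0 : (0 : ℝ) < (r : ℝ) + 1 := by positivity
  set ν : ℝ := 1 / ((r : ℝ) + 1) with hν
  have hν0 : 0 < ν := by positivity
  have hνle : ∀ i : Fin r, 0 ≤ 1 - ((i : ℝ) + 1) * ν := by
    intro i
    have h1 : (i : ℝ) + 1 ≤ (r : ℝ) + 1 := by
      have := i.2
      have h2 : ((i : ℕ) : ℝ) ≤ (r : ℝ) := by exact_mod_cast this.le
      linarith
    have h3 : ((i : ℝ) + 1) * ν ≤ ((r : ℝ) + 1) * ν := mul_le_mul_of_nonneg_right h1 hν0.le
    have h4 : ((r : ℝ) + 1) * ν = 1 := by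
      rw [hν]
      field_simp
    linarith
  let D : (Fin r → F) → (Fin r → F) → ℝ := fun u u' =>
    ∑ i ∈ (Finset.univ : Finset (Fin r)), (1 - ((i : ℝ) + 1) * ν) * sq (x (u i)) (x (u' i))
  have hD : Good D := Good.sum _ fun i _ =>
    (Good.comap (Good.smul hx (hνle i)) (fun u : Fin r → F => u i))
  have HF' : Can DX C (fun a b : {f : F // f ≠ z} =>
      sq ((fun f : F => √ν • x f) a) ((fun f : F => √ν • x f) b)) Eq :=
    (HF ν hν0).congr fun a b => by
      simp only
      rw [sq_smul, Real.sq_sqrt hν0.le]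
  obtain ⟨ι₂, i₂, W₂, H₂⟩ := scales DX (fun f => √ν • x f) z f₀ HF' r κ
    (Λ → (Fin r → F) → (Fin r → F) → Fin 3) Λ le_rfl
  obtain ⟨ι₁, i₁, W₁, H₁⟩ := hD ((↥W₂ → κ) × (Λ → ↥W₂ → ↥W₂ → Prop))
  refine ⟨ι₁ ⊕ ι₂, inferInstance, (W₁ ×ˢ W₂).image (fun p => Sum.elim p.1 p.2),
    fun h c hc => ?_⟩
  obtain ⟨a, ma, da, ha⟩ := H₁
    (fun u => (fun w => h (Sum.elim u w), fun l w w' =>
      c l (Sum.elim u (w : ι₂ → ℝ)) = c l (Sum.elim u (w' : ι₂ → ℝ))))
  have da' : ∀ p q, sq (a p) (a q) = D p q := da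
  have ha1 : ∀ p q, ∀ w : ↥W₂, h (Sum.elim (a p) w) = h (Sum.elim (a q) w) := fun p q w =>
    congrFun (congrArg Prod.fst (ha p q)) w
  have ha2 : ∀ p q l, ∀ w w' : ↥W₂,
      (c l (Sum.elim (a p) w) = c l (Sum.elim (a p) w') ↔
        c l (Sum.elim (a q) w) = c l (Sum.elim (a q) w')) := fun p q l w w' =>
    iff_of_eq (congrFun (congrFun (congrFun (congrArg Prod.snd (ha p q)) l) w) w')
  have h3 : ∀ l p q, ∃ k : C → Fin 3, ∀ w w' : ↥W₂,
      k (c l (Sum.elim (a p) w)) = k (c l (Sum.elim (a p) w')) →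
      c l (Sum.elim (a p) w) = c l (Sum.elim (a q) w') →
      c l (Sum.elim (a p) w) = c l (Sum.elim (a p) w') := fun l p q =>
    three (fun w : ↥W₂ => c l (Sum.elim (a p) w)) (fun w : ↥W₂ => c l (Sum.elim (a q) w))
      (ha2 p q l)
  choose k hk using h3
  let base : Fin r → F := fun _ => z
  obtain ⟨i, B, mB, dB, hB, hB', cB⟩ := H₂
    (fun w => h (Sum.elim (a base) w))
    (fun w => fun l p q => k l p q (c l (Sum.elim (a p) w)))
    (fun l w => c l (Sum.elim (a base) w)) (fun l => (hc l).right _)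
  refine ⟨fun p => Sum.elim (a (Function.update base i p)) (B p), fun p => ?_, fun p q => ?_, ?_,
    fun l p q e => ?_⟩
  · exact Finset.mem_image.mpr ⟨(_, B p), Finset.mem_product.mpr ⟨ma _, mB p⟩, rfl⟩
  · rw [sq_sumElim, da', dB, sq_smul, Real.sq_sqrt hν0.le]
    have e1 : D (Function.update base i p) (Function.update base i q)
        = (1 - ((i : ℝ) + 1) * ν) * sq (x p) (x q) := by
      simp only [D]
      rw [Finset.sum_eq_single i]
      · rw [Function.update_self, Function.update_self]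
      · intro i' _ hi'
        rw [Function.update_of_ne hi', Function.update_of_ne hi', sq_self, mul_zero]
      · intro hi
        exact absurd (Finset.mem_univ _) hi
    rw [e1]
    ring
  · intro p q
    have e1 := ha1 (Function.update base i p) base ⟨B p, mB p⟩
    have e2 := ha1 (Function.update base i q) base ⟨B q, mB q⟩
    exact e1.trans ((hB p q).trans e2.symm)
  · by_cases hp : p = z
    · exact Or.inr (Or.inl hp)
    · by_cases hq : q = z
      · exact Or.inr (Or.inr hq)
      · left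
        have e3 : k l (Function.update base i p) (Function.update base i q)
              (c l (Sum.elim (a (Function.update base i p)) (B p)))
            = k l (Function.update base i p) (Function.update base i q)
              (c l (Sum.elim (a (Function.update base i p)) (B q))) :=
          congrFun (congrFun (congrFun (hB' p q hp hq) l) (Function.update base i p))
            (Function.update base i q)
        have e4 := hk l (Function.update base i p) (Function.update base i q)
          ⟨B p, mB p⟩ ⟨B q, mB q⟩ e3 e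
        have e5 := (ha2 (Function.update base i p) base l ⟨B p, mB p⟩ ⟨B q, mB q⟩).mp e4
        exact cB l p q hp hq e5

end Pool.Agent.N479.CR
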